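import Pool.Agent.Helper776.Complete

/-!
# Additive powers over subsets of abelian groups
-/

set_option autoImplicit false

namespace Pool.Agent.Y469.AC

open Finset Pool.Agent.Helper776

/-- The infinite word `w` contains an additive `k`-th power: `k` consecutive blocks of the same
positive length `L` with the same sum. -/
def HasPower {G : Type*} [AddCommMonoid G] (k : ℕ) (w : ℕ → G) : Prop :=
  ∃ p L : ℕ, 0 < L ∧ ∀ i < k, ∑ t ∈ range L, w (p + i * L + t) = ∑ t ∈ range L, w (p + t)

/-- The two-sided infinite word `w` contains an additive `k`-th power. -/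
def HasPowerZ {G : Type*} [AddCommMonoid G] (k : ℕ) (w : ℤ → G) : Prop :=
  ∃ (p : ℤ) (L : ℕ), 0 < L ∧ ∀ i < k, ∑ t ∈ range L, w (p + i * L + t) = ∑ t ∈ range L, w (p + t)

/-- a torsion-free abelian group -/
def TorFree (G : Type*) [AddCommGroup G] : Prop := ∀ (n : ℤ) (x : G), n • x = 0 → n = 0 ∨ x = 0

theorem cubeFree_iff (w : ℕ → ℤ) (h : Assemble.CubeFree w) : ¬ HasPower 3 w := by
  rintro ⟨p, L, hL, hp⟩
  have h1 := hp 1 (by norm_num)
  have h2 := hp 2 (by norm_num)
  rw [one_mul] at h1
  exact h p L hL ⟨h1.symm, h1.trans h2.symm⟩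

/-- the relations between two elements of a torsion-free group -/
theorem rel {G : Type*} [AddCommGroup G] (hG : TorFree G) (u v : G) (hu : u ≠ 0) (hv : v ≠ 0)
    (huv : u ≠ v) : ∃ p q : ℤ, p ≠ 0 ∧ q ≠ 0 ∧ p ≠ q ∧
      ∀ m n : ℤ, m • u + n • v = 0 → m * p + n * q = 0 := by
  by_cases h : ∀ m n : ℤ, m • u + n • v = 0 → m = 0 ∧ n = 0
  · refine ⟨1, 2, by norm_num, by norm_num, by norm_num, fun m n hmn => ?_⟩
    obtain ⟨rfl, rfl⟩ := h m n hmn
    simp
  · push Not at h
    obtain ⟨m₀, n₀, h0, h1⟩ := h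
    have hm : m₀ ≠ 0 := by
      rintro rfl
      rw [zero_smul, zero_add] at h0
      rcases hG _ _ h0 with h2 | h2
      · exact h1 rfl h2
      · exact hv h2
    have hn : n₀ ≠ 0 := by
      rintro rfl
      rw [zero_smul, add_zero] at h0
      rcases hG _ _ h0 with h2 | h2
      · exact hm h2
      · exact hu h2
    have hmn : n₀ ≠ -m₀ := by
      rintro rfl
      rw [neg_smul, ← sub_eq_add_neg, ← smul_sub] at h0
      rcases hG _ _ h0 with h2 | h2
      · exact hm h2
      · exact huv (sub_eq_zero.1 h2)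
    refine ⟨n₀, -m₀, hn, neg_ne_zero.2 hm, hmn, fun m n h2 => ?_⟩
    have h3 : (n₀ * m - n * m₀) • u = 0 := by
      have h4 : n₀ • (m • u + n • v) - n • (m₀ • u + n₀ • v) = 0 := by rw [h2, h0]; simp
      rw [← h4, sub_smul, mul_smul, mul_smul, smul_add, smul_add, smul_comm n₀ n v]
      abel
    rcases hG _ _ h3 with h4 | h4
    · linarith
    · exact absurd h4 hu

/-- three letters of a torsion-free group suffice -/
theorem three {G : Type*} [AddCommGroup G] (hG : TorFree G) (x y z : G) (hxy : x ≠ y)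
    (hxz : x ≠ z) (hyz : y ≠ z) :
    ∃ w : ℕ → G, (∀ n, w n = x ∨ w n = y ∨ w n = z) ∧ ¬ HasPower 3 w := by
  obtain ⟨p, q, hp, hq, hpq, hr⟩ := rel hG (y - x) (z - x) (sub_ne_zero.2 hxy.symm)
    (sub_ne_zero.2 hxz.symm) (fun h => hyz (sub_left_injective h))
  obtain ⟨c, hc, hcf⟩ := Complete.set_full {0, p, q} (by
    rw [Finset.card_eq_three.2 ⟨0, p, q, hp.symm, hq.symm, hpq, rfl⟩])
  let α : ℕ → ℤ := fun n => if c n = p then 1 else 0
  let β : ℕ → ℤ := fun n => if c n = q then 1 else 0
  have hcα : ∀ n, c n = α n * p + β n * q := by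
    intro n
    simp only [α, β]
    have := hc n
    rw [mem_insert, mem_insert, mem_singleton] at this
    rcases this with h | h | h
    · rw [h, if_neg hp.symm, if_neg hq.symm]; ring
    · rw [h, if_pos rfl, if_neg hpq]; ring
    · rw [h, if_pos rfl, if_neg hpq.symm]; ring
  refine ⟨fun n => x + (α n • (y - x) + β n • (z - x)), fun n => ?_, ?_⟩
  · simp only [α, β]
    by_cases h1 : c n = p
    · right; left
      rw [if_pos h1, if_neg (by rw [h1]; exact hpq)]
      simp
    · by_cases h2 : c n = q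
      · right; right
        rw [if_neg h1, if_pos h2]
        simp
      · left
        rw [if_neg h1, if_neg h2]
        simp
  · intro hcon
    refine cubeFree_iff c hcf ?_
    obtain ⟨s, L, hL, hs⟩ := hcon
    refine ⟨s, L, hL, fun i hi => ?_⟩
    have h1 := hs i hi
    simp only [sum_add_distrib, sum_const, card_range, ← sum_smul] at h1
    have h2 := add_left_cancel h1
    have h3 : (∑ t ∈ range L, α (s + i * L + t) - ∑ t ∈ range L, α (s + t)) • (y - x) +
        (∑ t ∈ range L, β (s + i * L + t) - ∑ t ∈ range L, β (s + t)) • (z - x) = 0 := by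
      rw [sub_smul, sub_smul]
      rw [← sub_eq_zero] at h2
      rw [← h2]
      abel
    have h4 := hr _ _ h3
    simp only [hcα, sum_add_distrib, ← sum_mul]
    linarith

/-- lifting of words through a homomorphism -/
theorem lift {G H : Type*} [AddCommGroup G] [AddCommGroup H] (hH : TorFree H) (φ : G →+ H)
    (x y z : G) (hxy : φ x ≠ φ y) (hxz : φ x ≠ φ z) (hyz : φ y ≠ φ z) :
    ∃ w : ℕ → G, (∀ n, w n = x ∨ w n = y ∨ w n = z) ∧ ¬ HasPower 3 w := by
  classical
  obtain ⟨v, hv, hcf⟩ := three hH _ _ _ hxy hxz hyz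
  refine ⟨fun n => if v n = φ x then x else if v n = φ y then y else z, fun n => ?_, ?_⟩
  · dsimp only
    split_ifs
    · exact Or.inl rfl
    · exact Or.inr (Or.inl rfl)
    · exact Or.inr (Or.inr rfl)
  · rintro ⟨p, L, hL, hp⟩
    refine hcf ⟨p, L, hL, fun i hi => ?_⟩
    have h1 := congrArg φ (hp i hi)
    have h2 : ∀ n, φ (if v n = φ x then x else if v n = φ y then y else z) = v n := by
      intro n
      split_ifs with h3 h4
      · exact h3.symm
      · exact h4.symm
      · rcases hv n with h | h | h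
        · exact absurd h h3
        · exact absurd h h4
        · exact h.symm
    simpa only [map_sum, h2] using h1

/-- two letters do not suffice: every word of length ten contains an additive cube -/
theorem two {G : Type*} [AddCommGroup G] (a b : G) (w : ℕ → G) (hw : ∀ n < 10, w n = a ∨ w n = b) :
    ∃ p L : ℕ, 0 < L ∧ p + 3 * L ≤ 10 ∧
      ∀ i < 3, ∑ t ∈ range L, w (p + i * L + t) = ∑ t ∈ range L, w (p + t) := by
  classical
  set c : ℕ → ℕ := fun n => if w n = a then 1 else 0 with hc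
  have hc2 : ∀ n, c n < 2 := by
    intro n; simp only [hc]; split_ifs <;> norm_num
  have hwc : ∀ n < 10, w n = b + (c n : ℤ) • (a - b) := by
    intro n hn
    simp only [hc]
    by_cases h : w n = a
    · simp [h]
    · have h2 := (hw n hn).resolve_left h
      rw [if_neg h, h2]
      simp
  obtain ⟨p, _, L, _, hL0, hpL, e1, e2⟩ := Assemble.binary (c 0) (hc2 0) (c 1) (hc2 1) (c 2) (hc2 2)
    (c 3) (hc2 3) (c 4) (hc2 4) (c 5) (hc2 5) (c 6) (hc2 6) (c 7) (hc2 7) (c 8) (hc2 8)
    (c 9) (hc2 9)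
  have hg : ∀ i < 10, [c 0, c 1, c 2, c 3, c 4, c 5, c 6, c 7, c 8, c 9].getD i 0 = c i := by
    intro i hi
    interval_cases i <;> rfl
  have s : ∀ q, q + L ≤ 10 →
      (∑ k ∈ range L, [c 0, c 1, c 2, c 3, c 4, c 5, c 6, c 7, c 8, c 9].getD (q + k) 0) =
        ∑ k ∈ range L, c (q + k) := by
    intro q hq
    refine sum_congr rfl fun k hk => ?_
    rw [mem_range] at hk
    exact hg _ (by omega)
  rw [s p (by omega), s (p + L) (by omega)] at e1
  rw [s (p + L) (by omega), s (p + 2 * L) (by omega)] at e2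
  have t : ∀ q, q + L ≤ 10 → (∑ k ∈ range L, w (q + k)) =
      L • b + ((∑ k ∈ range L, c (q + k) : ℕ) : ℤ) • (a - b) := by
    intro q hq
    rw [sum_congr rfl fun k hk => hwc (q + k) (by rw [mem_range] at hk; omega), sum_add_distrib,
      ← sum_smul]
    simp
  refine ⟨p, L, hL0, hpL, fun i hi => ?_⟩
  rw [t (p + i * L) (by nlinarith), t p (by omega)]
  rcases (show i = 0 ∨ i = 1 ∨ i = 2 by omega) with rfl | rfl | rfl
  · simp
  · rw [one_mul, e1]
  · rw [← e2, e1]

/-- no additive power can be avoided if the differences of the letters lie in a finite group -/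
theorem vdw {G : Type*} [AddCommGroup G] (H : AddSubgroup G) (hH : (H : Set G).Finite)
    (w : ℕ → G) (hw : ∀ m n, w m - w n ∈ H) (k : ℕ) : HasPower k w := by
  have : Finite H := hH.to_subtype
  let C : ℕ → H := fun n => ∑ t ∈ range n, ⟨w t - w 0, hw t 0⟩
  obtain ⟨a, ha, b, c, hc⟩ := Combinatorics.exists_mono_homothetic_copy (range (k + 1)) C
  refine ⟨b, a, ha, ?_⟩
  have key : ∀ i < k, ∑ t ∈ range a, w (b + i * a + t) = a • w 0 := by
    intro i hi
    have h1 := hc i (by rw [mem_range]; omega)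
    have h2 := hc (i + 1) (by rw [mem_range]; omega)
    have h3 : C (a • i + b) = C (a • (i + 1) + b) := h1.trans h2.symm
    have h4 : a • (i + 1) + b = (b + i * a) + a := by simp only [smul_eq_mul]; ring
    have h5 : a • i + b = b + i * a := by simp only [smul_eq_mul]; ring
    rw [h4, h5] at h3
    simp only [C] at h3
    rw [sum_range_add (fun t => (⟨w t - w 0, hw t 0⟩ : H)) (b + i * a) a] at h3
    have h6 := left_eq_add.1 h3
    have h7 := congrArg (Subtype.val) h6
    simp only [AddSubgroup.val_finsetSum, ZeroMemClass.coe_zero, sum_sub_distrib, sum_const,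
      card_range] at h7
    exact sub_eq_zero.1 h7
  intro i hi
  rw [key i hi]
  rcases Nat.eq_zero_or_pos k with rfl | hk
  · omega
  · have := key 0 hk
    rw [zero_mul, add_zero] at this
    rw [this]

/-- from one-sided to two-sided words -/
theorem twoSided {G : Type*} [AddCommMonoid G] (x y z : G) (k : ℕ) (w : ℕ → G)
    (hw : ∀ n, w n = x ∨ w n = y ∨ w n = z) (h : ¬ HasPower k w) :
    ∃ v : ℤ → G, (∀ n, v n = x ∨ v n = y ∨ v n = z) ∧ ¬ HasPowerZ k v := by
  classical
  let U : Ultrafilter ℕ := Filter.hyperfilter ℕ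
  have hU : ∀ n : ℤ, ∃ a : G, (a = x ∨ a = y ∨ a = z) ∧ ∀ᶠ m : ℕ in (U : Filter ℕ),
      w ((m : ℤ) + n).toNat = a := by
    intro n
    have h1 : ∀ᶠ m : ℕ in (U : Filter ℕ), w ((m : ℤ) + n).toNat = x ∨ w ((m : ℤ) + n).toNat = y ∨
        w ((m : ℤ) + n).toNat = z := Filter.Eventually.of_forall fun m => hw _
    rcases Ultrafilter.eventually_or.1 h1 with h2 | h2
    · exact ⟨x, Or.inl rfl, h2⟩
    · rcases Ultrafilter.eventually_or.1 h2 with h3 | h3
      · exact ⟨y, Or.inr (Or.inl rfl), h3⟩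
      · exact ⟨z, Or.inr (Or.inr rfl), h3⟩
  choose v hv1 hv2 using hU
  refine ⟨v, hv1, ?_⟩
  rintro ⟨p, L, hL, hp⟩
  have hall : ∀ᶠ m : ℕ in (U : Filter ℕ), ∀ j ∈ range (k * L + L), w ((m : ℤ) + (p + j)).toNat =
      v (p + j) := by
    rw [Filter.eventually_all_finset]
    intro j _
    exact hv2 _
  have hlarge : ∀ᶠ m : ℕ in (U : Filter ℕ), p.natAbs ≤ m := by
    have h1 : ∀ᶠ m : ℕ in Filter.cofinite, p.natAbs ≤ m := by
      rw [Nat.cofinite_eq_atTop]
      exact Filter.eventually_ge_atTop _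
    exact Filter.hyperfilter_le_cofinite h1
  obtain ⟨m, hm1, hm2⟩ := (hall.and hlarge).exists
  refine h ⟨((m : ℤ) + p).toNat, L, hL, fun i hi => ?_⟩
  have hnn : 0 ≤ (m : ℤ) + p := by omega
  have key : ∀ j, j < k * L + L → w (((m : ℤ) + p).toNat + j) = v (p + j) := by
    intro j hj
    rw [← hm1 j (mem_range.2 hj)]
    congr 1
    omega
  have h1 := hp i hi
  have h2 : ∀ t ∈ range L, w (((m : ℤ) + p).toNat + i * L + t) = v (p + i * L + t) := by
    intro t ht
    rw [mem_range] at ht
    have h3 : i * L + t < k * L + L := by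
      have : i * L ≤ k * L := Nat.mul_le_mul_right _ hi.le
      omega
    rw [add_assoc, key _ h3]
    congr 1
    push_cast
    ring
  have h3 : ∀ t ∈ range L, w (((m : ℤ) + p).toNat + t) = v (p + t) := by
    intro t ht
    rw [mem_range] at ht
    exact key t (by omega)
  rw [sum_congr rfl h2, sum_congr rfl h3, h1]

end Pool.Agent.Y469.AC
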